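import Pool.Agent.LibQC8.Defs

/-!
Sets of divisor classes on which zero-cycles are torsion modulo degree and sum, and saturations.
-/

open scoped Classical

namespace Pool.Agent.LibLP34

open Pool.Agent.LibBH2 Pool.Agent.LibQC8

variable {k F : Type} [Field k] [Field F] [Algebra k F]

/-- `c = ∑ m_j D_j` is a zero-cycle on `C^(N)` of degree `0` with torsion sum, supported on effective
divisors `D_j` of degree `N` with `D_j - N w` of class `ξ + u_j`, `u_j` in the set `U`. -/
def CycleOn (w : Place k F) (U : Set (Pic0 k F)) (ξ : Pic0 k F) (N : ℕ)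
    (c : Multiset (Place k F) →₀ ℤ) : Prop :=
  ∃ (n : ℕ) (D : Fin n → Multiset (Place k F)) (m : Fin n → ℤ) (u : Fin n → Pic0 k F),
    (∀ j, (D j).card = N ∧ u j ∈ U ∧ cl w (D j) = ξ + u j) ∧ DegreeSumZero m u ∧
    c = ∑ j, Finsupp.single (D j) (m j)

/-- Every zero-cycle of degree `0` with torsion sum supported on a translate of `U`, on any `C^(N)`,
is torsion in the Chow group. -/
def TorsionOn (w : Place k F) (U : Set (Pic0 k F)) : Prop :=
  ∀ (ξ : Pic0 k F) (N : ℕ) (c : Multiset (Place k F) →₀ ℤ), CycleOn w U ξ N c →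
    IsTorsionCycle N c

/-- For every translate of `U` and every `N` the zero-cycles on `C^(N)` of degree `0` with torsion sum
supported on this translate generate a subgroup of rank at most one of the Chow group: any two of
them are linearly dependent modulo torsion. -/
def RankOneOn (w : Place k F) (U : Set (Pic0 k F)) : Prop :=
  ∀ (ξ : Pic0 k F) (N : ℕ) (c c' : Multiset (Place k F) →₀ ℤ), CycleOn w U ξ N c →
    CycleOn w U ξ N c' → ∃ p q : ℤ, (p ≠ 0 ∨ q ≠ 0) ∧ IsTorsionCycle N (p • c + q • c')

/-- The saturation of the subgroup generated by `S`: all elements of `G` a non-zero multiple of which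
is in the subgroup generated by `S`. -/
def sat {G : Type} [AddCommGroup G] (S : Set G) : AddSubgroup G where
  carrier := {u | ∃ q : ℤ, q ≠ 0 ∧ q • u ∈ AddSubgroup.closure S}
  zero_mem' := ⟨1, one_ne_zero, by simp⟩
  add_mem' := by
    rintro u v ⟨q, hq, h⟩ ⟨q', hq', h'⟩
    refine ⟨q * q', mul_ne_zero hq hq', ?_⟩
    have h1 : (q * q') • (u + v) = q' • (q • u) + q • (q' • v) := by
      rw [smul_add, mul_smul, mul_smul, smul_comm q q' u]
    rw [h1]
    exact add_mem (zsmul_mem h _) (zsmul_mem h' _)
  neg_mem' := by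
    rintro u ⟨q, hq, h⟩
    refine ⟨q, hq, ?_⟩
    rw [smul_neg]
    exact neg_mem h

end Pool.Agent.LibLP34
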