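import Pool.Agent.LibLP34.Defs
import Pool.Agent.LibQC8.Thm

/-!
Classes whose power series are quadratic polynomials.
-/

open scoped Classical

namespace Pool.Agent.LibLP34

open Pool.Agent.LibBH2 Pool.Agent.LibQC8

variable {k F : Type} [Field k] [Field F] [Algebra k F]

theorem TorsionOn.mono {w : Place k F} {U V : Set (Pic0 k F)} (h : TorsionOn w V) (hUV : U ⊆ V) :
    TorsionOn w U := by
  rintro ξ N c ⟨n, D, m, u, h1, h2, h3⟩
  exact h ξ N c ⟨n, D, m, u, fun j => ⟨(h1 j).1, hUV (h1 j).2.1, (h1 j).2.2⟩, h2, h3⟩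

theorem RankOneOn.mono {w : Place k F} {U V : Set (Pic0 k F)} (h : RankOneOn w V) (hUV : U ⊆ V) :
    RankOneOn w U := by
  rintro ξ N c c' ⟨n, D, m, u, h1, h2, h3⟩ ⟨n', D', m', u', h1', h2', h3'⟩
  exact h ξ N c c' ⟨n, D, m, u, fun j => ⟨(h1 j).1, hUV (h1 j).2.1, (h1 j).2.2⟩, h2, h3⟩
    ⟨n', D', m', u', fun j => ⟨(h1' j).1, hUV (h1' j).2.1, (h1' j).2.2⟩, h2', h3'⟩

/-- the power series `1 + x T` -/
noncomputable def aff (x : Ch k F) : PowerSeries (Ch k F) := 1 + PowerSeries.C x * PowerSeries.X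

theorem coeff_zero_aff (x : Ch k F) : PowerSeries.coeff 0 (aff x) = 1 := by
  rw [aff, map_add, PowerSeries.coeff_C_mul]
  simp

theorem coeff_one_aff (x : Ch k F) : PowerSeries.coeff 1 (aff x) = x := by
  rw [aff, map_add, PowerSeries.coeff_one, if_neg one_ne_zero, zero_add, PowerSeries.coeff_C_mul,
    PowerSeries.coeff_one_X, mul_one]

theorem coeff_aff (x : Ch k F) {J : ℕ} (hJ : 2 ≤ J) : PowerSeries.coeff J (aff x) = 0 := by
  rw [aff, map_add, PowerSeries.coeff_one, if_neg (by omega), zero_add, PowerSeries.coeff_C_mul,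
    PowerSeries.coeff_X, if_neg (by omega), mul_zero]

theorem coeff_zero_mul (P Q : PowerSeries (Ch k F)) : PowerSeries.coeff 0 (P * Q) =
    PowerSeries.coeff 0 P * PowerSeries.coeff 0 Q := by
  rw [PowerSeries.coeff_mul, Finset.Nat.sum_antidiagonal_eq_sum_range_succ_mk,
    Finset.sum_range_one]

theorem coeff_one_mul (P Q : PowerSeries (Ch k F)) : PowerSeries.coeff 1 (P * Q) =
    PowerSeries.coeff 0 P * PowerSeries.coeff 1 Q + PowerSeries.coeff 1 P * PowerSeries.coeff 0 Q := by
  rw [PowerSeries.coeff_mul, Finset.Nat.sum_antidiagonal_eq_sum_range_succ_mk,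
    Finset.sum_range_succ, Finset.sum_range_one]

theorem coeff_two_mul (P Q : PowerSeries (Ch k F)) : PowerSeries.coeff 2 (P * Q) =
    PowerSeries.coeff 0 P * PowerSeries.coeff 2 Q + PowerSeries.coeff 1 P * PowerSeries.coeff 1 Q +
      PowerSeries.coeff 2 P * PowerSeries.coeff 0 Q := by
  rw [PowerSeries.coeff_mul, Finset.Nat.sum_antidiagonal_eq_sum_range_succ_mk,
    Finset.sum_range_succ, Finset.sum_range_succ, Finset.sum_range_one]

/-- the power series `1 + x T + z T ^ 2` -/
noncomputable def quad (x z : Ch k F) : PowerSeries (Ch k F) :=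
  1 + PowerSeries.C x * PowerSeries.X + PowerSeries.C z * PowerSeries.X ^ 2

theorem aff_mul_aff (x y : Ch k F) : aff x * aff y = quad (x + y) (x * y) := by
  rw [aff, aff, quad, map_add, map_mul]
  ring

theorem coeff_quad (x z : Ch k F) (j : ℕ) : PowerSeries.coeff j (quad x z) =
    if j = 0 then 1 else if j = 1 then x else if j = 2 then z else 0 := by
  rw [quad, map_add, map_add, PowerSeries.coeff_one, PowerSeries.coeff_C_mul,
    PowerSeries.coeff_C_mul, PowerSeries.coeff_X, PowerSeries.coeff_X_pow]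
  rcases j with _ | _ | _ | j <;> simp

/-- roots of unit power series are unique -/
theorem eq_of_pow_eq {P Q : (PowerSeries (Ch k F))ˣ}
    (hP : PowerSeries.constantCoeff (P : PowerSeries (Ch k F)) = 1)
    (hQ : PowerSeries.constantCoeff (Q : PowerSeries (Ch k F)) = 1) {q : ℤ} (hq : q ≠ 0)
    (h : P ^ q = Q ^ q) : P = Q := by
  have h1 : (P * Q⁻¹) ^ q = 1 := by
    refine (mul_zpow P Q⁻¹ q).trans ?_
    rw [h]
    exact (mul_zpow Q Q⁻¹ q).symm.trans (by rw [mul_inv_cancel, one_zpow])
  have h2 : q • dlog (Additive.ofMul (P * Q⁻¹)) = 0 := by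
    rw [← map_zsmul, ← ofMul_zpow, h1, ofMul_one, map_zero]
  have h3 : dlog (Additive.ofMul (P * Q⁻¹)) = 0 := by
    rw [← Int.cast_smul_eq_zsmul ℚ] at h2
    rcases smul_eq_zero.1 h2 with h | h
    · exact absurd h (by exact_mod_cast hq)
    · exact h
  have h4 : P * Q⁻¹ = 1 := by
    refine eq_one_of_dlog _ ?_ h3
    have h5 : PowerSeries.constantCoeff ((Q⁻¹ : (PowerSeries (Ch k F))ˣ) :
        PowerSeries (Ch k F)) = 1 := by
      have h6 := congrArg (PowerSeries.constantCoeff (R := Ch k F)) Q.mul_inv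
      rw [map_mul, hQ, one_mul, map_one] at h6
      exact h6
    rw [Units.val_mul, map_mul, hP, h5, one_mul]
  exact mul_inv_eq_one.1 h4

theorem constantCoeff_EP (hF : IsFunctionField k F) (w : Place k F) (u : Pic0 k F) :
    PowerSeries.constantCoeff ((EP hF w u).toMul : PowerSeries (Ch k F)) = 1 := by
  induction u using QuotientAddGroup.induction_on with
  | H D => exact constantCoeff_EE w D

theorem isUnit_aff (x : Ch k F) : IsUnit (aff x) := by
  rw [aff, PowerSeries.isUnit_iff_constantCoeff]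
  simp

/-- the unit `1 + x T` -/
noncomputable def affU (x : Ch k F) : (PowerSeries (Ch k F))ˣ := (isUnit_aff x).unit

theorem affU_val (x : Ch k F) : (affU x : PowerSeries (Ch k F)) = aff x := rfl

theorem constantCoeff_aff (x : Ch k F) : PowerSeries.constantCoeff (aff x) = 1 := by
  rw [aff]; simp

theorem affU_mul {x y : Ch k F} (h : x * y = 0) : affU x * affU y = affU (x + y) := by
  apply Units.ext
  rw [Units.val_mul, affU_val, affU_val, affU_val, aff_mul_aff, h, quad, aff, map_zero, zero_mul,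
    add_zero]

theorem affU_zero : affU (0 : Ch k F) = 1 := by
  apply Units.ext
  rw [affU_val, aff, map_zero, zero_mul, add_zero, Units.val_one]

theorem affU_pow {x : Ch k F} (hx : x * x = 0) (n : ℕ) : affU x ^ n = affU ((n : ℚ) • x) := by
  induction n with
  | zero => rw [pow_zero, Nat.cast_zero, zero_smul, affU_zero]
  | succ n ih =>
    rw [pow_succ, ih, affU_mul (by rw [smul_mul_assoc, hx, smul_zero]), Nat.cast_add, Nat.cast_one,
      add_smul, one_smul]

theorem affU_zpow {x : Ch k F} (hx : x * x = 0) (n : ℤ) : affU x ^ n = affU ((n : ℚ) • x) := by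
  obtain ⟨m, rfl | rfl⟩ := n.eq_nat_or_neg
  · rw [zpow_natCast, affU_pow hx, Int.cast_natCast]
  · rw [zpow_neg, zpow_natCast, affU_pow hx, Int.cast_neg, Int.cast_natCast]
    apply inv_eq_of_mul_eq_one_right
    rw [affU_mul (by rw [smul_mul_smul_comm, hx, smul_zero]), ← add_smul, add_neg_cancel, zero_smul,
      affU_zero]

/-- the classes whose power series is `1 + x T + t κ T ^ 2` with `t` rational -/
def Qd (hF : IsFunctionField k F) (w : Place k F) (κ : Ch k F) : Set (Pic0 k F) :=
  {u | ∃ (x : Ch k F) (t : ℚ), ((EP hF w u).toMul : PowerSeries (Ch k F)) = quad x (t • κ)}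

/-- rational combinations of two classes with affine power series -/
theorem mem_Qd {hF : IsFunctionField k F} {w : Place k F} {κ x y : Ch k F} {p p' u : Pic0 k F}
    (hp : (EP hF w p).toMul = affU x) (hp' : (EP hF w p').toMul = affU y) (hx : x * x = 0)
    (hy : y * y = 0) {s : ℚ} (hxy : x * y = s • κ) {q i j : ℤ} (hq : q ≠ 0)
    (h : q • u = i • p + j • p') : u ∈ Qd hF w κ := by
  have hq' : (q : ℚ) ≠ 0 := by exact_mod_cast hq
  set α : ℚ := (i : ℚ) / q
  set β : ℚ := (j : ℚ) / q
  have hα : (q : ℚ) * α = i := by rw [mul_div_cancel₀ _ hq']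
  have hβ : (q : ℚ) * β = j := by rw [mul_div_cancel₀ _ hq']
  have hx' : (α • x) * (α • x) = 0 := by rw [smul_mul_smul_comm, hx, smul_zero]
  have hy' : (β • y) * (β • y) = 0 := by rw [smul_mul_smul_comm, hy, smul_zero]
  have h1 : (EP hF w u).toMul = affU (α • x) * affU (β • y) := by
    refine eq_of_pow_eq (constantCoeff_EP hF w u) ?_ hq ?_
    · rw [Units.val_mul, map_mul, affU_val, affU_val, constantCoeff_aff, constantCoeff_aff, one_mul]
    · have h2 : (EP hF w u).toMul ^ q = affU x ^ i * affU y ^ j := by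
        rw [← toMul_zsmul, ← map_zsmul, h, map_add, map_zsmul, map_zsmul, toMul_add, toMul_zsmul,
          toMul_zsmul, hp, hp']
      rw [h2]
      refine Eq.symm ((mul_zpow (affU (α • x)) (affU (β • y)) q).trans ?_)
      rw [affU_zpow hx', affU_zpow hy', affU_zpow hx, affU_zpow hy, smul_smul, smul_smul, hα, hβ]
  refine ⟨α • x + β • y, (α * β) * s, ?_⟩
  rw [h1, Units.val_mul, affU_val, affU_val, aff_mul_aff, smul_mul_smul_comm, hxy, smul_smul]

/-- the first coefficient is additive -/
noncomputable def e1 (hF : IsFunctionField k F) (w : Place k F) : Pic0 k F →+ Ch k F :=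
  AddMonoidHom.mk' (fun u => ee hF w 1 u) (fun u v => by
    have h0 : ∀ u : Pic0 k F, PowerSeries.coeff 0 ((EP hF w u).toMul : PowerSeries (Ch k F)) = 1 :=
      fun u => by
        rw [PowerSeries.coeff_zero_eq_constantCoeff_apply]
        exact constantCoeff_EP hF w u
    rw [ee, ee, ee, map_add, toMul_add, Units.val_mul, coeff_one_mul, h0, h0, one_mul, mul_one,
      add_comm])

theorem smul_cc (q : ℚ) (x : Ch k F) : q • x = algebraMap ℚ (Ch k F) q * x := Algebra.smul_def q x

theorem coeff_mul_C_mul (c : Ch k F) (A B : PowerSeries (Ch k F)) (i : ℕ) :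
    PowerSeries.coeff i (A * (PowerSeries.C c * B)) = c * PowerSeries.coeff i (A * B) := by
  rw [← PowerSeries.coeff_C_mul]
  congr 1
  ring

/-- the class on `C^(N)` attached to the translate by `ξ` -/
noncomputable def KK (hF : IsFunctionField k F) (w : Place k F) (κ : Ch k F) (ξ : Pic0 k F)
    (N : ℕ) : Ch k F :=
  ∑ i ∈ Finset.range (N + 1), PowerSeries.coeff i (((EP hF w ξ).toMul : PowerSeries (Ch k F)) *
    (PowerSeries.C κ * PowerSeries.X ^ 2)) * y w ^ (N - i)

/-- the class of a cycle on a translate of `Qd κ` is a multiple of `KK` -/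
theorem class_cycle {hF : IsFunctionField k F} {w : Place k F} {κ : Ch k F} {ξ : Pic0 k F} {N : ℕ}
    {c : Multiset (Place k F) →₀ ℤ} (hc : CycleOn w (Qd hF w κ) ξ N c) :
    (∀ E ∈ c.support, E.card = N) ∧
      ∃ t : ℚ, Ideal.Quotient.mk (relIdeal k F) (ι c) = t • KK hF w κ ξ N := by
  obtain ⟨n, D, m, u, hD, ⟨h0, q, hq, h1⟩, rfl⟩ := hc
  refine ⟨?_, ?_⟩
  · intro E hE
    have := Finsupp.support_finsetSum hE
    rw [Finset.mem_biUnion] at this
    obtain ⟨j, _, hj⟩ := this
    have := Finsupp.support_single_subset hj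
    rw [Finset.mem_singleton] at this
    rw [this, (hD j).1]
  · have hu := fun j => (hD j).2.1
    choose x t hxt using hu
    refine ⟨∑ j, (m j : ℚ) * t j, ?_⟩
    have hx : ∀ j, e1 hF w (u j) = x j := by
      intro j
      show PowerSeries.coeff 1 ((EP hF w (u j)).toMul : PowerSeries (Ch k F)) = x j
      rw [hxt, coeff_quad]
      simp
    have hsum : ∑ j, (m j : ℚ) • x j = 0 := by
      have h2 : e1 hF w (∑ j, m j • u j) = 0 := by
        apply eq_zero_of_nsmul q hq
        rw [← map_nsmul, h1, map_zero]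
      rw [map_sum] at h2
      rw [← h2]
      refine Finset.sum_congr rfl fun j _ => ?_
      rw [map_zsmul, hx, Int.cast_smul_eq_zsmul]
    have hdeg : ∑ j, (m j : ℚ) = 0 := by exact_mod_cast h0
    -- the sum of the power series
    have hser : ∑ j, PowerSeries.C (algebraMap ℚ (Ch k F) (m j)) *
        ((EP hF w (u j)).toMul : PowerSeries (Ch k F)) =
        PowerSeries.C (algebraMap ℚ (Ch k F) (∑ j, (m j : ℚ) * t j)) *
          (PowerSeries.C κ * PowerSeries.X ^ 2) := by
      have h3 : ∀ j, PowerSeries.C (algebraMap ℚ (Ch k F) (m j)) *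
          ((EP hF w (u j)).toMul : PowerSeries (Ch k F)) =
          PowerSeries.C (algebraMap ℚ (Ch k F) (m j)) +
          PowerSeries.C ((m j : ℚ) • x j) * PowerSeries.X +
          PowerSeries.C (algebraMap ℚ (Ch k F) ((m j : ℚ) * t j)) *
            (PowerSeries.C κ * PowerSeries.X ^ 2) := by
        intro j
        rw [hxt, quad, smul_cc, smul_cc, map_mul, map_mul, map_mul, map_mul]
        ring
      rw [Finset.sum_congr rfl fun j _ => h3 j, Finset.sum_add_distrib, Finset.sum_add_distrib,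
        ← Finset.sum_mul, ← Finset.sum_mul, ← map_sum, ← map_sum, ← map_sum, ← map_sum, ← map_sum,
        hsum, hdeg, map_zero, map_zero, zero_mul, zero_add, zero_add]
    rw [map_sum, map_sum, KK, Finset.smul_sum]
    have h4 : ∀ j, Ideal.Quotient.mk (relIdeal k F) (ι (Finsupp.single (D j) (m j))) =
        ∑ i ∈ Finset.range (N + 1), PowerSeries.coeff i
          (((EP hF w ξ).toMul : PowerSeries (Ch k F)) *
            (PowerSeries.C (algebraMap ℚ (Ch k F) (m j)) *
              ((EP hF w (u j)).toMul : PowerSeries (Ch k F)))) * y w ^ (N - i) := by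
      intro j
      rw [ι_single, mk_smul, mk_mono, class_eq hF w, (hD j).1, Finset.smul_sum, (hD j).2.2]
      refine Finset.sum_congr rfl fun i _ => ?_
      rw [ee, map_add, toMul_add, Units.val_mul, smul_cc, coeff_mul_C_mul, mul_assoc]
    rw [Finset.sum_congr rfl fun j _ => h4 j, Finset.sum_comm]
    refine Finset.sum_congr rfl fun i _ => ?_
    rw [← Finset.sum_mul, ← map_sum, ← Finset.mul_sum, hser, smul_cc, coeff_mul_C_mul, mul_assoc]

theorem torsionOn_Qd (hF : IsFunctionField k F) (w : Place k F) : TorsionOn w (Qd hF w 0) := by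
  intro ξ N c hc
  obtain ⟨h1, t, h2⟩ := class_cycle hc
  refine torsion_of_mem h1 ?_
  rw [← Ideal.Quotient.eq_zero_iff_mem, h2, KK, map_zero, zero_mul, mul_zero]
  simp

theorem rankOneOn_Qd (hF : IsFunctionField k F) (w : Place k F) (κ : Ch k F) :
    RankOneOn w (Qd hF w κ) := by
  intro ξ N c c' hc hc'
  obtain ⟨h1, t, h2⟩ := class_cycle hc
  obtain ⟨h1', t', h2'⟩ := class_cycle hc'
  -- integers
  obtain ⟨p, q, hpq, h3⟩ : ∃ p q : ℤ, (p ≠ 0 ∨ q ≠ 0) ∧ (p : ℚ) * t + q * t' = 0 := by
    by_cases ht : t = 0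
    · exact ⟨1, 0, Or.inl one_ne_zero, by rw [ht]; simp⟩
    · refine ⟨-(t'.num * t.den), t.num * t'.den, Or.inr ?_, ?_⟩
      · exact mul_ne_zero (Rat.num_ne_zero.2 ht) (by exact_mod_cast t'.den_nz)
      · have e1 : (t.den : ℚ) * t = t.num := Rat.den_mul_eq_num t
        have e2 : (t'.den : ℚ) * t' = t'.num := Rat.den_mul_eq_num t'
        push_cast
        rw [← e1, ← e2]
        ring
  refine ⟨p, q, hpq, torsion_of_mem ?_ ?_⟩
  · intro E hE
    rcases Finset.mem_union.1 (Finsupp.support_add hE) with h | h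
    · exact h1 E (Finsupp.support_smul h)
    · exact h1' E (Finsupp.support_smul h)
  · rw [← Ideal.Quotient.eq_zero_iff_mem, map_add, map_add, map_zsmul, map_zsmul, map_zsmul,
      map_zsmul, h2, h2', ← Int.cast_smul_eq_zsmul ℚ p, ← Int.cast_smul_eq_zsmul ℚ q, smul_smul,
      smul_smul, ← add_smul, h3, zero_smul]

/-- a torsion cycle is zero in the Chow ring -/
theorem mk_eq_zero {N : ℕ} {c : Multiset (Place k F) →₀ ℤ} (h : IsTorsionCycle N c) :
    Ideal.Quotient.mk (relIdeal k F) (ι c) = 0 := by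
  obtain ⟨n, hn, h⟩ := h
  apply eq_zero_of_nsmul n hn
  rw [← map_nsmul, ← map_nsmul, Ideal.Quotient.eq_zero_iff_mem]
  generalize n • c = c' at h
  induction h using AddSubgroup.closure_induction with
  | mem x hx => exact Submodule.subset_span ⟨x, ⟨N, hx⟩, rfl⟩
  | zero => rw [map_zero]; exact zero_mem _
  | add x y _ _ hx hy => rw [map_add]; exact add_mem hx hy
  | neg x _ hx => rw [map_neg]; exact neg_mem hx

end Pool.Agent.LibLP34
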