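import Pool.Agent.LibLP34.Main

/-!
The final theorem.
-/

open scoped Classical
open Polynomial

namespace Pool.Agent.LibLP34

open Pool.Agent.LibBH2 Pool.Agent.LibQC8
open Pool.Agent.LibJac77 (Genus2 Pt KC DCf vp dv neg jP Pic mk Qb exists_two deg_add)

variable {f : Qb[X]} [Genus2 f]

/-- classes of divisors of degree zero -/
def Z0 (f : Qb[X]) [Genus2 f] : AddSubgroup (Pic f) where
  carrier := {c | ∃ D : Pt f →₀ ℤ, Pool.Agent.LibJac77.deg D = 0 ∧ mk f D = c}
  zero_mem' := ⟨0, by simp [Pool.Agent.LibJac77.deg], map_zero _⟩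
  add_mem' := by
    rintro _ _ ⟨D, hD, rfl⟩ ⟨E, hE, rfl⟩
    exact ⟨D + E, by rw [deg_add, hD, hE, add_zero], map_add _ _ _⟩
  neg_mem' := by
    rintro _ ⟨D, hD, rfl⟩
    refine ⟨-D, ?_, map_neg _ _⟩
    have h1 := deg_add (-D) D
    rw [neg_add_cancel, hD, add_zero] at h1
    rw [← h1]; simp [Pool.Agent.LibJac77.deg]

theorem jP_mem (P : Pt f) : jP P ∈ Z0 f := ⟨_, deg_jP P, rfl⟩

theorem indep_ψ {ι : Type} (x : ι → Pic f) (hx : ∀ i, x i ∈ Z0 f) (h : LinearIndependent ℤ x) :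
    LinearIndependent ℤ (fun i => ψ f (x i)) := by
  rw [linearIndependent_iff'] at h ⊢
  intro s w hw
  refine h s w ?_
  apply ψ_injective
  · exact sum_mem fun i _ => zsmul_mem (hx i) _
  · rw [map_sum, ← hw]
    exact Finset.sum_congr rfl fun i _ => map_zsmul _ _ _

theorem cl_two (P Q : Pt f) : cl (ww f) {vp P, vp Q} = ψ f (jP P + jP Q) := by
  rw [map_add, ψ_jP, ψ_jP, cl, cl, cl, Pic0.mk, Pic0.mk, Pic0.mk]
  refine Eq.trans ?_ (QuotientAddGroup.mk_add _ _ _)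
  congr 1
  apply Subtype.ext
  show (Multiset.map _ ({vp P, vp Q} : Multiset (Place Qb (KC f)))).sum =
    (Multiset.map _ ({vp P} : Multiset (Place Qb (KC f)))).sum +
      (Multiset.map _ ({vp Q} : Multiset (Place Qb (KC f)))).sum
  rw [Multiset.insert_eq_cons, Multiset.map_cons, Multiset.sum_cons, Multiset.map_singleton,
    Multiset.map_singleton, Multiset.sum_singleton, Multiset.sum_singleton]

/-- an isotropic line `S + T` has `v_S v_T = 0` -/
theorem kappa_zero {D : Pt f →₀ ℤ} (hD : Pool.Agent.LibJac77.deg D = 0) {S T : Pt f}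
    (hST : mk f D = jP S + jP T)
    (hiso : TorsionOn (ww f) (AddSubgroup.zmultiples (ψ f (mk f D)) : Set (Pic0 Qb (KC f)))) :
    vv (ww f) (vp S) * vv (ww f) (vp T) = 0 := by
  have hD2 : Pool.Agent.LibJac77.deg (D + D) = 0 := by rw [deg_add, hD, add_zero]
  obtain ⟨S', T', hST'⟩ := exists_two (D + D) hD2
  apply vv_mul_eq_zero (S' := S') (T' := T')
  · rw [← hST, ← hST', map_add, two_smul]
  · refine hiso 0 2 _ ⟨3, ![{vp S', vp T'}, {vp S, vp T}, {ww f, ww f}], ![1, -2, 1],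
      ![ψ f (mk f D) + ψ f (mk f D), ψ f (mk f D), 0], ?_, ?_, ?_⟩
    · intro j
      fin_cases j
      · refine ⟨rfl, add_mem (AddSubgroup.mem_zmultiples _) (AddSubgroup.mem_zmultiples _), ?_⟩
        show cl (ww f) {vp S', vp T'} = 0 + (ψ f (mk f D) + ψ f (mk f D))
        rw [cl_two, ← hST', map_add, map_add, zero_add]
      · refine ⟨rfl, AddSubgroup.mem_zmultiples _, ?_⟩
        show cl (ww f) {vp S, vp T} = 0 + ψ f (mk f D)
        rw [cl_two, ← hST, zero_add]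
      · refine ⟨rfl, zero_mem _, ?_⟩
        show cl (ww f) {vp (.inf : Pt f), vp (.inf : Pt f)} = 0 + 0
        rw [cl_two, Pool.Agent.LibJac77.jP_inf, add_zero, map_zero, add_zero]
    · refine ⟨by simp [Fin.sum_univ_three], 1, one_pos, ?_⟩
      rw [one_smul]
      simp only [Fin.sum_univ_three]
      show (1 : ℤ) • (ψ f (mk f D) + ψ f (mk f D)) + (-2 : ℤ) • ψ f (mk f D) + (1 : ℤ) • 0 = 0
      rw [one_smul, smul_zero, add_zero, neg_smul, two_smul]
      abel
    · simp [Fin.sum_univ_three]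

theorem final (f : Qb[X]) [Genus2 f] (a : Pic0 Qb (KC f)) (ha : ∀ n : ℕ, n ≠ 0 → n • a ≠ 0) :
    ∃ b : ℕ → Pic0 Qb (KC f), LinearIndependent ℤ (fun i : Option ℕ => i.elim a b) ∧
      RankOneOn (ww f) (⋃ i, (sat {a, b i} : Set (Pic0 Qb (KC f)))) ∧
      (TorsionOn (ww f) (AddSubgroup.zmultiples a : Set (Pic0 Qb (KC f))) →
        TorsionOn (ww f) (⋃ i, (sat {a, b i} : Set (Pic0 Qb (KC f))))) := by
  obtain ⟨D, hD, rfl⟩ := ψ_surjective a
  obtain ⟨S, T, hST⟩ := exists_two D hD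
  have ha' : ∀ n : ℕ, n ≠ 0 → n • mk f D ≠ 0 := by
    intro n hn h
    apply ha n hn
    rw [← map_nsmul, h, map_zero]
  obtain ⟨e, he, hind⟩ := exists_seq (mk f D) ha' (fun b => ∃ (r n : ℕ) (P Q : Pt f), r ≠ 0 ∧
      n ≠ 0 ∧ n • (jP P + jP Q) = (n * r) • mk f D ∧ b = jP P - jP Q) (by
    intro S
    obtain ⟨r, n, P, Q, hr, hn, h, hS⟩ := main_step' (mk f D) ⟨D, hD, rfl⟩ ha' S
    exact ⟨_, ⟨r, n, P, Q, hr, hn, h, rfl⟩, hS⟩)
  have hsub : (⋃ i, (sat {ψ f (mk f D), ψ f (e i)} : Set (Pic0 Qb (KC f)))) ⊆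
      Qd (isFunctionField f) (ww f) (vv (ww f) (vp S) * vv (ww f) (vp T)) := by
    refine Set.iUnion_subset fun i u hu => ?_
    obtain ⟨r, n, P, Q, hr, hn, h, hb⟩ := he i
    have h' := h
    rw [hST] at h'
    refine mem_plane (vv_step hn h') hr hn (by rw [← map_nsmul, h, map_nsmul]) ?_
    rw [← hb]
    exact hu
  refine ⟨fun i => ψ f (e i), ?_, (rankOneOn_Qd _ _ _).mono hsub, fun hiso => ?_⟩
  · have h1 : (fun i : Option ℕ => i.elim (ψ f (mk f D)) (fun i => ψ f (e i))) =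
        fun i : Option ℕ => ψ f (i.elim (mk f D) e) := by
      funext i
      cases i <;> rfl
    rw [h1]
    refine indep_ψ _ ?_ hind
    intro i
    cases i with
    | none => exact ⟨D, hD, rfl⟩
    | some i =>
      obtain ⟨r, n, P, Q, _, _, _, h⟩ := he i
      show e i ∈ Z0 f
      rw [h]
      exact sub_mem (jP_mem P) (jP_mem Q)
  · rw [kappa_zero hD hST hiso] at hsub
    exact (torsionOn_Qd _ _).mono hsub

/-- the union of the lines of the points of the curve -/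
theorem lines (f : Qb[X]) [Genus2 f] : TorsionOn (ww f)
    (⋃ P : Place Qb (KC f), (sat {cl (ww f) {P}} : Set (Pic0 Qb (KC f)))) := by
  refine (torsionOn_Qd (isFunctionField f) (ww f)).mono (Set.iUnion_subset fun v u hu => ?_)
  obtain ⟨P, rfl⟩ := Pool.Agent.LibJac77.exists_eq_vp v
  exact mem_line hu

end Pool.Agent.LibLP34
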