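import Mathlib

/-!
Independent sequences.
-/

open scoped Classical

namespace Pool.Agent.LibLP34

/-- a sequence none of whose terms has a multiple in the group generated by the previous ones is
independent -/
theorem indep_of_seq {G : Type} [AddCommGroup G] (e : ℕ → G)
    (h : ∀ (n m : ℕ), m ≠ 0 → m • e n ∉ AddSubgroup.closure (e '' {i | i < n})) :
    LinearIndependent ℤ e := by
  rw [linearIndependent_iff']
  intro s w hw
  by_contra hne
  push Not at hne
  obtain ⟨i₀, hi₀, hwi₀⟩ := hne
  have hT : (s.filter fun i => w i ≠ 0).Nonempty := ⟨i₀, Finset.mem_filter.mpr ⟨hi₀, hwi₀⟩⟩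
  set m := (s.filter fun i => w i ≠ 0).max' hT with hm
  have hmmem : m ∈ s.filter fun i => w i ≠ 0 := Finset.max'_mem _ _
  have hms : m ∈ s := (Finset.mem_filter.mp hmmem).1
  have hwm : w m ≠ 0 := (Finset.mem_filter.mp hmmem).2
  have hle : ∀ i ∈ s, w i ≠ 0 → i ≤ m := fun i hi hwi =>
    Finset.le_max' _ _ (Finset.mem_filter.mpr ⟨hi, hwi⟩)
  have hsum : w m • e m = - ∑ i ∈ s.erase m, w i • e i := by
    rw [← Finset.add_sum_erase _ _ hms] at hw
    exact eq_neg_of_add_eq_zero_left hw
  have hmem : w m • e m ∈ AddSubgroup.closure (e '' {i | i < m}) := by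
    rw [hsum]
    refine neg_mem (sum_mem fun i hi => ?_)
    by_cases hwi : w i = 0
    · rw [hwi, zero_smul]; exact zero_mem _
    · have hilt : i < m := lt_of_le_of_ne (hle i (Finset.mem_of_mem_erase hi) hwi)
        (Finset.ne_of_mem_erase hi)
      have h2 : e i ∈ e '' {j | j < m} := Set.mem_image_of_mem e (show i ∈ {j | j < m} from hilt)
      exact zsmul_mem (AddSubgroup.subset_closure h2) _
  have hnat : (w m).natAbs • e m ∈ AddSubgroup.closure (e '' {i | i < m}) := by
    rcases Int.natAbs_eq (w m) with h1 | h1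
    · rw [h1, natCast_zsmul] at hmem
      exact hmem
    · rw [h1, neg_smul, natCast_zsmul] at hmem
      exact neg_mem_iff.mp hmem
  exact h m _ (Int.natAbs_ne_zero.mpr hwm) hnat

/-- an element `a` of infinite order and an independent sequence of elements with the property `Pr`
which, together with `a`, are independent -/
theorem exists_seq {G : Type} [AddCommGroup G] (a : G) (ha : ∀ n : ℕ, n ≠ 0 → n • a ≠ 0)
    (Pr : G → Prop) (h : ∀ S : Finset G, ∃ b, Pr b ∧ ∀ n : ℕ, n ≠ 0 →
      n • b ∉ AddSubgroup.closure (S : Set G)) :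
    ∃ e : ℕ → G, (∀ i, Pr (e i)) ∧ LinearIndependent ℤ (fun i : Option ℕ => i.elim a e) := by
  choose g hgA hg using h
  obtain ⟨F, F0, Fs⟩ : ∃ F : ℕ → Finset G, F 0 = {a} ∧ ∀ n, F (n + 1) = insert (g (F n)) (F n) :=
    ⟨fun n => Nat.rec {a} (fun _ S => insert (g S) S) n, rfl, fun n => rfl⟩
  let e : ℕ → G := fun n => g (F n)
  let e' : ℕ → G := fun n => Nat.casesOn n a e
  have ha' : ∀ n, a ∈ F n := by
    intro n
    induction n with
    | zero => rw [F0]; exact Finset.mem_singleton_self _
    | succ n ih => rw [Fs]; exact Finset.mem_insert_of_mem ih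
  have hsub : ∀ m n, m < n → e m ∈ F n := by
    intro m n hmn
    induction n with
    | zero => omega
    | succ n ih =>
      rw [Fs]
      rcases Nat.lt_succ_iff_lt_or_eq.mp hmn with h1 | h1
      · exact Finset.mem_insert_of_mem (ih h1)
      · subst h1; exact Finset.mem_insert_self _ _
  refine ⟨e, fun i => hgA _, ?_⟩
  have hind : LinearIndependent ℤ e' := by
    refine indep_of_seq e' ?_
    intro n m hm hmem
    cases n with
    | zero =>
      have h1 : e' '' {i | i < 0} = ∅ := by simp
      rw [h1, AddSubgroup.closure_empty, AddSubgroup.mem_bot] at hmem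
      exact ha m hm hmem
    | succ n =>
      refine hg (F n) m hm (AddSubgroup.closure_mono ?_ hmem)
      rintro _ ⟨i, hi, rfl⟩
      cases i with
      | zero => exact Finset.mem_coe.2 (ha' n)
      | succ i => exact Finset.mem_coe.2 (hsub i n (Nat.lt_of_succ_lt_succ hi))
  have h2 : (fun i : Option ℕ => i.elim a e) = e' ∘ (fun i : Option ℕ => i.elim 0 Nat.succ) := by
    funext i
    cases i <;> rfl
  rw [h2]
  refine hind.comp _ ?_
  intro i j hij
  cases i <;> cases j <;> simp_all

end Pool.Agent.LibLP34
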