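import Pool.Agent.LibLP34.Bridge
import Pool.Agent.LibLP34.Step
import Pool.Agent.LibLP34.Seq

/-!
The planes through a line of the Jacobian of a curve of genus two.
-/

open scoped Classical
open Polynomial

namespace Pool.Agent.LibLP34

open Pool.Agent.LibBH2 Pool.Agent.LibQC8
open Pool.Agent.LibJac77 (Genus2 Pt KC DCf vp dv neg jP Pic mk Qb)

variable {k : Type} [Field k] [CharZero k] [IsAlgClosed k] {f : k[X]} [Genus2 f]

theorem EP_vp (P : Pt f) : (EP (isFunctionField f) (ww f) (ψ f (jP P))).toMul =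
    affU (vv (ww f) (vp P)) := by
  apply Units.ext
  rw [ψ_jP, EP_cl, Multiset.map_singleton, Multiset.prod_singleton, gen_val, affU_val, aff]

theorem EP_two (P Q : Pt f) : ((EP (isFunctionField f) (ww f) (ψ f (jP P + jP Q))).toMul :
    PowerSeries (Ch k (KC f))) = aff (vv (ww f) (vp P)) * aff (vv (ww f) (vp Q)) := by
  rw [map_add, map_add, toMul_add, Units.val_mul, EP_vp, EP_vp, affU_val, affU_val]

theorem y_eq (P : Pt f) : (y (vp P) : Ch k (KC f)) = vv (ww f) (vp P) + y (ww f) := by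
  rw [vv, sub_add_cancel]

/-- the lines of the points -/
theorem mem_line {P : Pt f} {u : Pic0 k (KC f)} (hu : u ∈ sat {cl (ww f) {vp P}}) :
    u ∈ Qd (isFunctionField f) (ww f) 0 := by
  obtain ⟨q, hq, h⟩ := hu
  rw [← AddSubgroup.zmultiples_eq_closure, AddSubgroup.mem_zmultiples_iff] at h
  obtain ⟨i, hi⟩ := h
  refine mem_Qd (p := ψ f (jP P)) (p' := ψ f (jP P)) (EP_vp P) (EP_vp P) (vv_neg_sq P) (vv_neg_sq P)
    (s := 0) (by rw [zero_smul, vv_neg_sq]) (q := q) (i := i) (j := 0) hq ?_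
  rw [← hi, ψ_jP, zero_smul, add_zero]

/-- if `2 [S + T]`, `[S + T]`, `0` satisfy the relation of an isotropic line then `v_S v_T = 0` -/
theorem vv_mul_eq_zero {S T S' T' : Pt f} (h2 : jP S' + jP T' = 2 • (jP S + jP T))
    (hiso : IsTorsionCycle 2 (Finsupp.single ({vp S', vp T'} : Multiset (Place k (KC f))) (1 : ℤ) +
      Finsupp.single {vp S, vp T} (-2) + Finsupp.single {ww f, ww f} 1)) :
    vv (ww f) (vp S) * vv (ww f) (vp T) = 0 := by
  have h := mk_eq_zero hiso
  rw [map_add, map_add, map_add, map_add, ι_single, ι_single, ι_single, mk_smul, mk_smul, mk_smul,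
    mk_mono, mk_mono, mk_mono] at h
  simp only [Multiset.insert_eq_cons, Multiset.map_cons, Multiset.map_singleton,
    Multiset.prod_cons, Multiset.prod_singleton, Int.cast_one, one_smul] at h
  rw [y_eq, y_eq, y_eq, y_eq] at h
  have hE : ((EP (isFunctionField f) (ww f) (ψ f (jP S' + jP T'))).toMul :
      PowerSeries (Ch k (KC f))) =
      ((EP (isFunctionField f) (ww f) (ψ f (jP S + jP T))).toMul : PowerSeries (Ch k (KC f))) *
      ((EP (isFunctionField f) (ww f) (ψ f (jP S + jP T))).toMul : PowerSeries (Ch k (KC f))) := by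
    rw [h2, two_smul, map_add, map_add (EP _ _), toMul_add, Units.val_mul]
  rw [EP_two, EP_two] at hE
  have hS := vv_neg_sq S
  have hT := vv_neg_sq T
  have c1 := congrArg (PowerSeries.coeff 1) hE
  have c2 := congrArg (PowerSeries.coeff 2) hE
  simp only [coeff_zero_mul, coeff_one_mul, coeff_two_mul, coeff_zero_aff, coeff_one_aff,
    coeff_aff _ le_rfl] at c1 c2
  have h3 : (((-2 : ℤ) : ℚ)) • ((vv (ww f) (vp S) + y (ww f)) * (vv (ww f) (vp T) + y (ww f))) =
      -2 * ((vv (ww f) (vp S) + y (ww f)) * (vv (ww f) (vp T) + y (ww f))) := by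
    rw [Int.cast_smul_eq_zsmul, zsmul_eq_mul]
    norm_num
  rw [h3] at h
  apply eq_zero_of_nsmul 2 (by norm_num)
  rw [two_smul]
  set a := vv (ww f) (vp S)
  set b := vv (ww f) (vp T)
  set a' := vv (ww f) (vp S')
  set b' := vv (ww f) (vp T')
  set z := (y (ww f) : Ch k (KC f))
  linear_combination h - c2 - z * c1 - hS - hT

/-- if `n ([P] + [Q]) = n r ([S] + [T])` then `v_P v_Q = r ^ 2 v_S v_T` -/
theorem vv_step {S T P Q : Pt f} {r n : ℕ} (hn : n ≠ 0)
    (h : n • (jP P + jP Q) = (n * r) • (jP S + jP T)) :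
    vv (ww f) (vp P) * vv (ww f) (vp Q) =
      ((r : ℚ) ^ 2) • (vv (ww f) (vp S) * vv (ww f) (vp T)) := by
  have h1 : ∀ (n : ℕ) (P Q : Pt f),
      ((EP (isFunctionField f) (ww f) (ψ f (n • (jP P + jP Q)))).toMul :
        PowerSeries (Ch k (KC f))) =
      quad ((n : ℚ) • vv (ww f) (vp P) + (n : ℚ) • vv (ww f) (vp Q))
        (((n : ℚ) ^ 2) • (vv (ww f) (vp P) * vv (ww f) (vp Q))) := by
    intro n P Q
    have h2 : (EP (isFunctionField f) (ww f) (ψ f (n • (jP P + jP Q)))).toMul =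
        affU (vv (ww f) (vp P)) ^ n * affU (vv (ww f) (vp Q)) ^ n := by
      rw [smul_add, map_add, map_nsmul, map_nsmul, map_add, map_nsmul, map_nsmul, toMul_add,
        toMul_nsmul, toMul_nsmul, EP_vp, EP_vp]
    rw [h2, affU_pow (vv_neg_sq P), affU_pow (vv_neg_sq Q), Units.val_mul, affU_val, affU_val,
      aff_mul_aff, smul_mul_smul_comm, pow_two]
  have h3 := h1 n P Q
  rw [h, h1 (n * r) S T] at h3
  have h4 := congrArg (PowerSeries.coeff 2) h3
  rw [coeff_quad, coeff_quad] at h4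
  simp only [OfNat.ofNat_ne_zero, OfNat.ofNat_ne_one, if_false, if_true] at h4
  have hn' : ((n : ℚ) ^ 2) ≠ 0 := by
    have : (n : ℚ) ≠ 0 := by exact_mod_cast hn
    positivity
  have h5 := congrArg (fun z => ((n : ℚ) ^ 2)⁻¹ • z) h4
  simp only [smul_smul, Nat.cast_mul, mul_pow] at h5
  rw [inv_mul_cancel₀ hn', one_smul, ← mul_assoc, inv_mul_cancel₀ hn', one_mul] at h5
  exact h5.symm

/-- the planes -/
theorem mem_plane {P Q : Pt f} {κ : Ch k (KC f)} {s : ℚ}
    (hPQ : vv (ww f) (vp P) * vv (ww f) (vp Q) = s • κ) {a u : Pic0 k (KC f)} {r n : ℕ}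
    (hr : r ≠ 0) (hn : n ≠ 0) (h : n • ψ f (jP P + jP Q) = (n * r) • a)
    (hu : u ∈ sat {a, ψ f (jP P - jP Q)}) : u ∈ Qd (isFunctionField f) (ww f) κ := by
  obtain ⟨q, hq, hu⟩ := hu
  rw [AddSubgroup.mem_closure_pair] at hu
  obtain ⟨i, j, hij⟩ := hu
  refine mem_Qd (p := ψ f (jP P)) (p' := ψ f (jP Q)) (EP_vp P) (EP_vp Q) (vv_neg_sq P) (vv_neg_sq Q)
    hPQ (q := (n * r : ℕ) * q) (i := i * n + (n * r : ℕ) * j) (j := i * n - (n * r : ℕ) * j)
    (mul_ne_zero (by exact_mod_cast mul_ne_zero hn hr) hq) ?_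
  rw [mul_smul, ← hij, smul_add, smul_comm ((n * r : ℕ) : ℤ) i a, natCast_zsmul, ← h, ← natCast_zsmul,
    map_add, map_sub]
  simp only [add_smul, sub_smul, mul_smul, smul_add, smul_sub]
  abel

end Pool.Agent.LibLP34
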